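import Mathlib
import Pool.Agent.W544.K3.Defs

/-!
# K3-EXT
-/

open Module Finset

set_option linter.unusedSimpArgs false

namespace Pool.Agent.W565.K3

open Pool.Agent.W544.K3

noncomputable section

namespace Ext

variable {r s m : ℕ}

/-- the transcendental slots -/
def A (q : Fin m → Option (Fin s)) : Finset (Fin m) := univ.filter fun j => q j = none

theorem mem_A (q : Fin m → Option (Fin s)) (j : Fin m) : j ∈ A q ↔ q j = none := by
  simp [A]

/-- enumeration of the transcendental slots -/
def ee (q : Fin m → Option (Fin s)) : Fin (A q).card ≃o (A q) := (A q).orderIsoOfFin rfl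

/-- the multi-index with pattern `q` and transcendental part `K` -/
def mk (q : Fin m → Option (Fin s)) (K : Fin (A q).card → Fin r) : Fin m → Fin s ⊕ Fin r :=
  fun j => if h : q j = none then Sum.inr (K ((ee q).symm ⟨j, (mem_A q j).2 h⟩))
    else Sum.inl ((q j).get (Option.isSome_iff_ne_none.2 h))

theorem mk_some {q : Fin m → Option (Fin s)} (K : Fin (A q).card → Fin r) {j : Fin m} {a : Fin s}
    (h : q j = some a) : mk q K j = Sum.inl a := by
  unfold mk
  rw [dif_neg (by rw [h]; simp)]
  congr 1
  simp [h]

theorem mk_none {q : Fin m → Option (Fin s)} (K : Fin (A q).card → Fin r) {j : Fin m}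
    (h : q j = none) : mk q K j = Sum.inr (K ((ee q).symm ⟨j, (mem_A q j).2 h⟩)) := by
  unfold mk
  rw [dif_pos h]

theorem q_ee {q : Fin m → Option (Fin s)} (i : Fin (A q).card) : q (ee q i) = none :=
  (mem_A q _).1 (ee q i).2

theorem mk_ee {q : Fin m → Option (Fin s)} (K : Fin (A q).card → Fin r) (i : Fin (A q).card) :
    mk q K (ee q i) = Sum.inr (K i) := by
  rw [mk_none K (q_ee i)]
  congr 2
  simp

/-- the pattern of a multi-index -/
def pat (I : Fin m → Fin s ⊕ Fin r) : Fin m → Option (Fin s) :=
  fun j => Sum.elim some (fun _ => none) (I j)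

theorem pat_mk (q : Fin m → Option (Fin s)) (K : Fin (A q).card → Fin r) : pat (mk q K) = q := by
  funext j
  unfold pat
  cases h : q j with
  | none => rw [mk_none K h]; rfl
  | some a => rw [mk_some K h]; rfl

theorem exists_mk (I : Fin m → Fin s ⊕ Fin r) {q : Fin m → Option (Fin s)} (h : pat I = q) :
    ∃ K, mk q K = I := by
  have hr : ∀ i : Fin (A q).card, ∃ b : Fin r, I (ee q i) = Sum.inr b := by
    intro i
    have h1 : pat I (ee q i) = none := by rw [h]; exact q_ee i
    cases h2 : I (ee q i) with
    | inl a => unfold pat at h1; rw [h2] at h1; simp at h1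
    | inr b => exact ⟨b, rfl⟩
  choose K hK using hr
  refine ⟨K, ?_⟩
  funext j
  cases hj : q j with
  | some a =>
    rw [mk_some K hj]
    have h1 : pat I j = some a := by rw [h, hj]
    unfold pat at h1
    cases h2 : I j with
    | inl b => rw [h2] at h1; simp at h1; rw [h1]
    | inr b => rw [h2] at h1; simp at h1
  | none =>
    rw [mk_none K hj, ← hK]
    simp

theorem mk_inj {q : Fin m → Option (Fin s)} {K K' : Fin (A q).card → Fin r}
    (h : mk q K = mk q K') : K = K' := by
  funext i
  have := congrFun h (ee q i)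
  rw [mk_ee, mk_ee] at this
  exact Sum.inr_injective this

theorem bij : Function.Bijective
    (fun p : (Σ q : Fin m → Option (Fin s), (Fin (A q).card → Fin r)) => mk p.1 p.2) := by
  constructor
  · rintro ⟨q, K⟩ ⟨q', K'⟩ h
    simp only at h
    have h1 : q = q' := by
      rw [← pat_mk q K, h, pat_mk]
    subst h1
    rw [mk_inj h]
  · intro I
    obtain ⟨K, hK⟩ := exists_mk I rfl
    exact ⟨⟨pat I, K⟩, hK⟩

theorem sum_mk {R : Type} [AddCommMonoid R] (f : (Fin m → Fin s ⊕ Fin r) → R) :
    ∑ I, f I = ∑ q : Fin m → Option (Fin s), ∑ K : Fin (A q).card → Fin r, f (mk q K) := by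
  rw [← Fintype.sum_bijective _ (bij (r := r) (s := s) (m := m)) _ f (fun _ => rfl),
    Fintype.sum_sigma]

theorem prod_split {R : Type} [CommMonoid R] (q : Fin m → Option (Fin s)) (F : Fin m → R) :
    ∏ j, F j = (∏ j with q j ≠ none, F j) * ∏ i : Fin (A q).card, F (ee q i) := by
  have h1 : ∏ i : Fin (A q).card, F (ee q i) = ∏ j with q j = none, F j := by
    rw [Fintype.prod_equiv (ee q).toEquiv (fun i => F (ee q i)) (fun j : A q => F j)
      (fun i => rfl)]
    exact Finset.prod_coe_sort (A q) F
  rw [h1, mul_comm]
  exact (Finset.prod_filter_mul_prod_filter_not univ (fun j => q j = none) F).symm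

theorem sum_split {R : Type} [AddCommMonoid R] (q : Fin m → Option (Fin s)) (F : Fin m → R) :
    ∑ j, F j = (∑ j with q j ≠ none, F j) + ∑ i : Fin (A q).card, F (ee q i) := by
  have h1 : ∑ i : Fin (A q).card, F (ee q i) = ∑ j with q j = none, F j := by
    rw [Fintype.sum_equiv (ee q).toEquiv (fun i => F (ee q i)) (fun j : A q => F j)
      (fun i => rfl)]
    exact Finset.sum_coe_sort (A q) F
  rw [h1, add_comm]
  exact (Finset.sum_filter_add_sum_filter_not univ (fun j => q j = none) F).symm

/-- (1) -/
theorem drb (X : K3Type r) (t : (Fin m → Fin s ⊕ Fin r) → ℚ) (ht : X.IsDRB' t)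
    (q : Fin m → Option (Fin s)) : X.IsDRB (fun K => t (mk q K)) := by
  intro J
  have h := ht (mk q J)
  have key : (∑ I : Fin m → Fin s ⊕ Fin r, (t I : ℂ) * ∏ j, X.D' s (I j) (mk q J j)) =
      ∑ K : Fin (A q).card → Fin r, (t (mk q K) : ℂ) * ∏ i, X.D (K i) (J i) := by
    rw [sum_mk, Finset.sum_eq_single q]
    · refine Finset.sum_congr rfl fun K _ => ?_
      congr 1
      rw [prod_split q, Finset.prod_eq_one, one_mul]
      · refine Finset.prod_congr rfl fun i _ => ?_
        rw [mk_ee, mk_ee]
        rfl
      · intro j hj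
        rw [Finset.mem_filter] at hj
        obtain ⟨a, ha⟩ := Option.ne_none_iff_exists'.1 hj.2
        rw [mk_some K ha, mk_some J ha]
        unfold K3Type.D'
        simp
    · intro q' _ hq'
      refine Finset.sum_eq_zero fun K _ => ?_
      have : ∃ j, q' j ≠ q j := by
        by_contra hcon
        push Not at hcon
        exact hq' (funext hcon)
      obtain ⟨j, hj⟩ := this
      rw [Finset.prod_eq_zero (Finset.mem_univ j), mul_zero]
      cases h1 : q' j with
      | some a =>
        rw [mk_some K h1]
        cases h2 : q j with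
        | some b =>
          rw [mk_some J h2]
          have hab : a ≠ b := by
            intro hab
            apply hj
            rw [h1, h2, hab]
          unfold K3Type.D'
          simp [hab]
        | none =>
          rw [mk_none J h2]
          unfold K3Type.D'
          simp
      | none =>
        rw [mk_none K h1]
        cases h2 : q j with
        | some b =>
          rw [mk_some J h2]
          unfold K3Type.D'
          simp
        | none =>
          exact absurd (h1.trans h2.symm) hj
    · intro h0
      exact absurd (Finset.mem_univ _) h0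
  rw [key] at h
  exact h

/-- the evaluation -/
theorem ev_mk (t : (Fin m → Fin s ⊕ Fin r) → ℚ) (v : Fin m → Fin s ⊕ Fin r → ℂ) :
    ev t v = ∑ q : Fin m → Option (Fin s),
      (∏ j with q j ≠ none, Sum.elim (fun a => v j (Sum.inl a)) (fun _ : Unit => 0)
        ((q j).elim (Sum.inr ()) Sum.inl)) *
      ev (fun K => t (mk q K)) (fun i => fun b => v (ee q i) (Sum.inr b)) := by
  unfold ev
  rw [sum_mk]
  refine Finset.sum_congr rfl fun q _ => ?_
  rw [Finset.mul_sum]
  refine Finset.sum_congr rfl fun K _ => ?_
  rw [prod_split q]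
  have h1 : ∏ j with q j ≠ none, v j (mk q K j) =
      ∏ j with q j ≠ none, Sum.elim (fun a => v j (Sum.inl a)) (fun _ : Unit => 0)
        ((q j).elim (Sum.inr ()) Sum.inl) := by
    refine Finset.prod_congr rfl fun j hj => ?_
    rw [Finset.mem_filter] at hj
    obtain ⟨a, ha⟩ := Option.ne_none_iff_exists'.1 hj.2
    rw [mk_some K ha, ha]
    rfl
  have h2 : ∏ i, v (ee q i) (mk q K (ee q i)) = ∏ i, v (ee q i) (Sum.inr (K i)) :=
    Finset.prod_congr rfl fun i _ => by rw [mk_ee]
  rw [h1, h2]
  ring

theorem hodge (X : K3Type r) (H : ∀ (k : ℕ) (t : (Fin k → Fin r) → ℚ), X.IsDRB t → X.IsHodge t)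
    (t : (Fin m → Fin s ⊕ Fin r) → ℚ) (ht : X.IsDRB' t) : X.IsHodge' t := by
  intro v p hv hp
  rw [ev_mk]
  refine Finset.sum_eq_zero fun q _ => ?_
  by_cases h0 : ∃ j, q j ≠ none ∧ p j ≠ 0
  · obtain ⟨j, hj, hpj⟩ := h0
    rw [Finset.prod_eq_zero (Finset.mem_filter.2 ⟨Finset.mem_univ j, hj⟩), zero_mul]
    obtain ⟨a, ha⟩ := Option.ne_none_iff_exists'.1 hj
    rw [ha]
    simp only [Option.elim_some, Sum.elim_inl]
    rcases hv j with ⟨-, h1⟩ | ⟨-, h1⟩ | ⟨h1, -⟩
    · rw [h1]; rfl
    · rw [h1]; rfl
    · exact absurd h1 hpj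
  · push Not at h0
    have h1 : ∑ i : Fin (A q).card, p (ee q i) ≠ 0 := by
      rw [sum_split q, Finset.sum_eq_zero (fun j hj => h0 j (Finset.mem_filter.1 hj).2),
        zero_add] at hp
      exact hp
    have h2 := H _ _ (drb X t ht q) (fun i => fun b => v (ee q i) (Sum.inr b))
      (fun i => p (ee q i)) (fun i => by
        rcases hv (ee q i) with ⟨h3, h4⟩ | ⟨h3, h4⟩ | ⟨h3, h4, h5⟩
        · left
          exact ⟨h3, by rw [h4]; rfl⟩
        · right; left
          exact ⟨h3, by rw [h4]; rfl⟩
        · right; right
          exact ⟨h3, h4, h5⟩) h1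
    rw [h2, mul_zero]

/-- extension of a form on the transcendental slots -/
def Φ (q : Fin m → Option (Fin s)) :
    ((Fin (A q).card → Fin r) → ℚ) →ₗ[ℚ] ((Fin m → Fin s ⊕ Fin r) → ℚ) where
  toFun t := fun I => ∑ K, if mk q K = I then t K else 0
  map_add' := by
    intro t t'
    funext I
    simp only [Pi.add_apply]
    rw [← Finset.sum_add_distrib]
    refine Finset.sum_congr rfl fun K _ => ?_
    split_ifs <;> simp
  map_smul' := by
    intro c t
    funext I
    simp only [Pi.smul_apply, RingHom.id_apply, smul_eq_mul]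
    rw [Finset.mul_sum]
    refine Finset.sum_congr rfl fun K _ => ?_
    split_ifs <;> simp

theorem Φ_mk (q : Fin m → Option (Fin s)) (t : (Fin (A q).card → Fin r) → ℚ)
    (K : Fin (A q).card → Fin r) : Φ q t (mk q K) = t K := by
  change (∑ K', if mk q K' = mk q K then t K' else 0) = t K
  rw [Finset.sum_eq_single K]
  · simp
  · intro K' _ hK'
    rw [if_neg (fun h => hK' (mk_inj h))]
  · intro h
    exact absurd (Finset.mem_univ _) h

theorem Φ_zero (q : Fin m → Option (Fin s)) (t : (Fin (A q).card → Fin r) → ℚ)
    (I : Fin m → Fin s ⊕ Fin r) (h : pat I ≠ q) : Φ q t I = 0 := by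
  change (∑ K', if mk q K' = I then t K' else 0) = 0
  refine Finset.sum_eq_zero fun K _ => ?_
  rw [if_neg]
  intro h1
  rw [← h1, pat_mk] at h
  exact h rfl

theorem t_eq (t : (Fin m → Fin s ⊕ Fin r) → ℚ) :
    t = ∑ q : Fin m → Option (Fin s), Φ q (fun K => t (mk q K)) := by
  funext I
  rw [Finset.sum_apply, Finset.sum_eq_single (pat I)]
  · obtain ⟨K, hK⟩ := exists_mk I rfl
    have h : Φ (pat I) (fun K => t (mk (pat I) K)) (mk (pat I) K) = t (mk (pat I) K) :=
      Φ_mk (pat I) (fun K => t (mk (pat I) K)) K
    rw [hK] at h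
    exact h.symm
  · intro q _ hq
    exact Φ_zero q _ I (Ne.symm hq)
  · intro h
    exact absurd (Finset.mem_univ _) h

/-- the transported involution -/
def sg (q : Fin m → Option (Fin s)) (σ : Fin (A q).card → Fin (A q).card) : Fin m → Fin m :=
  fun j => if h : q j = none then ee q (σ ((ee q).symm ⟨j, (mem_A q j).2 h⟩)) else j

theorem sg_ee (q : Fin m → Option (Fin s)) (σ : Fin (A q).card → Fin (A q).card)
    (i : Fin (A q).card) : sg q σ (ee q i) = ee q (σ i) := by
  unfold sg
  rw [dif_pos (q_ee i)]
  simp

theorem sg_some {q : Fin m → Option (Fin s)} (σ : Fin (A q).card → Fin (A q).card) {j : Fin m}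
    (h : q j ≠ none) : sg q σ j = j := by
  unfold sg
  rw [dif_neg h]

theorem exists_ee {q : Fin m → Option (Fin s)} {j : Fin m} (h : q j = none) :
    ∃ i, (ee q i : Fin m) = j :=
  ⟨(ee q).symm ⟨j, (mem_A q j).2 h⟩, by simp⟩

theorem alg_gen (X : K3Type r) (q : Fin m → Option (Fin s))
    (σ : Fin (A q).card → Fin (A q).card) (h1 : ∀ j, σ (σ j) = j) (h2 : ∀ j, σ j ≠ j)
    (t : (Fin (A q).card → Fin r) → ℚ)
    (ht : ∀ I, t I = ∏ j with j < σ j, X.B (I j) (I (σ j))) :
    Φ q t ∈ X.algClasses s m := by
  apply Submodule.subset_span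
  refine ⟨sg q σ, fun j a => if q j = some a then 1 else 0, ?_, ?_⟩
  · intro j
    cases hj : q j with
    | none =>
      obtain ⟨i, rfl⟩ := exists_ee hj
      rw [sg_ee, sg_ee, h1]
    | some a =>
      have h := sg_some σ (j := j) (by rw [hj]; simp)
      rw [h, h]
  · intro I
    by_cases hI : pat I = q
    · obtain ⟨K, rfl⟩ := exists_mk I hI
      rw [Φ_mk, ht]
      have p1 : ∏ j with sg q σ j = j, Sum.elim (fun a => if q j = some a then (1 : ℚ) else 0)
          (fun _ => 0) (mk q K j) = 1 := by
        refine Finset.prod_eq_one fun j hj => ?_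
        rw [Finset.mem_filter] at hj
        cases hq : q j with
        | none =>
          obtain ⟨i, rfl⟩ := exists_ee hq
          have := hj.2
          rw [sg_ee] at this
          exact absurd ((ee q).injective (Subtype.ext this)) (h2 i)
        | some a =>
          rw [mk_some K hq]
          simp
      rw [p1, one_mul]
      -- the product over pairs
      refine Finset.prod_nbij (fun i => (ee q i : Fin m)) ?_ ?_ ?_ ?_
      · intro i hi
        rw [Finset.mem_filter] at hi ⊢
        refine ⟨Finset.mem_univ _, ?_⟩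
        rw [sg_ee]
        exact (ee q).lt_iff_lt.2 hi.2
      · intro i _ i' _ h
        exact (ee q).injective (Subtype.ext h)
      · intro j hj
        rw [Finset.mem_coe, Finset.mem_filter] at hj
        cases hq : q j with
        | none =>
          obtain ⟨i, rfl⟩ := exists_ee hq
          refine ⟨i, ?_, rfl⟩
          rw [Finset.mem_coe, Finset.mem_filter]
          refine ⟨Finset.mem_univ _, ?_⟩
          have := hj.2
          rw [sg_ee] at this
          exact (ee q).lt_iff_lt.1 this
        | some a =>
          have := hj.2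
          rw [sg_some σ (by rw [hq]; simp)] at this
          exact absurd this (lt_irrefl _)
      · intro i _
        rw [sg_ee, mk_ee, mk_ee]
        rfl
    · rw [Φ_zero q t I hI]
      have : ∃ j, pat I j ≠ q j := by
        by_contra hcon
        push Not at hcon
        exact hI (funext hcon)
      obtain ⟨j, hj⟩ := this
      symm
      cases hq : q j with
      | some a =>
        apply mul_eq_zero_of_left
        have hfix : sg q σ j = j := sg_some σ (by rw [hq]; simp)
        apply Finset.prod_eq_zero (i := j) (by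
          rw [Finset.mem_filter]
          exact ⟨Finset.mem_univ j, hfix⟩)
        rw [hq] at hj
        cases hIj : I j with
        | inl b =>
          unfold pat at hj
          rw [hIj] at hj
          simp only [Sum.elim_inl, ne_eq, Option.some.injEq] at hj
          simp only [Sum.elim_inl, hq, Option.some.injEq]
          rw [if_neg (fun h => hj h.symm)]
        | inr b => rfl
      | none =>
        obtain ⟨i, rfl⟩ := exists_ee hq
        have hb : ∃ b, I (ee q i) = Sum.inl b := by
          unfold pat at hj
          rw [hq] at hj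
          cases hIj : I (ee q i) with
          | inl b => exact ⟨b, rfl⟩
          | inr b => rw [hIj] at hj; simp at hj
        obtain ⟨b, hb⟩ := hb
        apply mul_eq_zero_of_right
        rcases lt_or_gt_of_ne (h2 i) with h3 | h3
        · -- σ i < i
          apply Finset.prod_eq_zero (i := (ee q (σ i) : Fin m))
          · rw [Finset.mem_filter]
            refine ⟨Finset.mem_univ _, ?_⟩
            rw [sg_ee, h1]
            exact (ee q).lt_iff_lt.2 h3
          · rw [sg_ee, h1, hb]
            cases I (ee q (σ i)) with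
            | inl c => rfl
            | inr c => rfl
        · apply Finset.prod_eq_zero (i := (ee q i : Fin m))
          · rw [Finset.mem_filter]
            refine ⟨Finset.mem_univ _, ?_⟩
            rw [sg_ee]
            exact (ee q).lt_iff_lt.2 h3
          · rw [sg_ee, hb]
            cases I (ee q (σ i)) with
            | inl c => rfl
            | inr c => rfl

theorem card_right (q : Fin m → Option (Fin s)) (K : Fin (A q).card → Fin r) :
    (univ.filter fun j => (mk q K j).isRight = true).card = (A q).card := by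
  congr 1
  ext j
  rw [Finset.mem_filter, mem_A]
  cases hq : q j with
  | none => rw [mk_none K hq]; simp
  | some a => rw [mk_some K hq]; simp

theorem alg (X : K3Type r)
    (H : ∀ (k : ℕ), k < r → ∀ (t : (Fin k → Fin r) → ℚ), X.IsDRB t → t ∈ pairs X.B k)
    (t : (Fin m → Fin s ⊕ Fin r) → ℚ) (ht : X.IsDRB' t)
    (hs : ∀ I, t I ≠ 0 → (univ.filter fun j => (I j).isRight = true).card < r) :
    t ∈ X.algClasses s m := by
  rw [t_eq t]
  refine Submodule.sum_mem _ fun q _ => ?_
  by_cases hk : (A q).card < r
  · have h1 := H _ hk _ (drb X t ht q)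
    refine Submodule.span_induction (p := fun u _ => Φ q u ∈ X.algClasses s m) ?_ ?_ ?_ ?_ h1
    · rintro u ⟨σ, h2, h3, h4⟩
      exact alg_gen X q σ h2 h3 u h4
    · rw [map_zero]
      exact Submodule.zero_mem _
    · intro u u' _ _ h2 h3
      rw [map_add]
      exact Submodule.add_mem _ h2 h3
    · intro c u _ h2
      rw [map_smul]
      exact Submodule.smul_mem _ _ h2
  · have h0 : (fun K => t (mk q K)) = (0 : (Fin (A q).card → Fin r) → ℚ) := by
      funext K
      by_contra hne
      have := hs _ hne
      rw [card_right] at this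
      exact hk this
    rw [h0, map_zero]
    exact Submodule.zero_mem _

end Ext

theorem ext : S_ext := by
  intro r s X
  exact ⟨fun H m t ht => Ext.hodge X H t ht, fun H m t ht hs => Ext.alg X H t ht hs⟩

end

end Pool.Agent.W565.K3
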