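import Mathlib
import Pool.Agent.W544.K3.Defs

/-!
# K3-IRR
-/

open Module Finset

set_option linter.unusedSimpArgs false

namespace Pool.Agent.W565.K3

open Pool.Agent.W544.K3

noncomputable section

variable {r : ℕ}

/-- the real operator of a rational matrix -/
def opR (x : Matrix (Fin r) (Fin r) ℚ) : End ℝ (Fin r → ℝ) :=
  Matrix.toLin' (x.map (fun q : ℚ => (q : ℝ)))

theorem opR_apply (x : Matrix (Fin r) (Fin r) ℚ) (v : Fin r → ℝ) (i : Fin r) :
    opR x v i = ∑ j, (x i j : ℝ) * v j := by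
  simp [opR, Matrix.mulVec, dotProduct]

theorem formR_basis {k : ℕ} (t : (Fin k → Fin r) → ℚ) (I : Fin k → Fin r) :
    formR t (fun j => Pi.single (I j) (1 : ℝ)) = (t I : ℝ) := by
  rw [formR_apply, Finset.sum_eq_single I]
  · simp
  · intro b _ hb
    have : ∃ j, b j ≠ I j := by
      by_contra hcon
      push Not at hcon
      exact hb (funext hcon)
    obtain ⟨j, hj⟩ := this
    rw [Finset.prod_eq_zero (Finset.mem_univ j), mul_zero]
    rw [Pi.single_apply, if_neg hj]
  · intro h
    exact absurd (Finset.mem_univ _) h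

/-- (0) -/
theorem lie_mem (X : K3Type r) (x : Matrix (Fin r) (Fin r) ℚ) (hx : x ∈ X.lie) :
    opR x ∈ X.hT := by
  intro k t ht
  -- the multilinear map
  let T : MultilinearMap ℝ (fun _ : Fin k => (Fin r → ℝ)) ℝ :=
    ∑ j : Fin k, (formR t).compLinearMap (fun i => if i = j then opR x else LinearMap.id)
  have hT : ∀ v, T v = ∑ j, formR t (Function.update v j (opR x (v j))) := by
    intro v
    simp only [T, _root_.sum_apply, MultilinearMap.compLinearMap_apply]
    refine Finset.sum_congr rfl fun j _ => ?_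
    congr 1
    funext i
    by_cases h : i = j
    · subst h
      simp
    · simp [h]
  have hT0 : T = 0 := by
    refine Module.Basis.ext_multilinear (fun _ => Pi.basisFun ℝ (Fin r)) ?_
    intro I
    rw [hT]
    simp only [Pi.basisFun_apply, _root_.zero_apply]
    have h1 := hx k t ht I
    have h2 : ∀ j, formR t (Function.update (fun i => Pi.single (I i) (1 : ℝ)) j
        (opR x (Pi.single (I j) 1))) = ∑ l, (x l (I j) : ℝ) * (t (Function.update I j l) : ℝ) := by
      intro j
      have h3 : opR x (Pi.single (I j) 1) = ∑ l, (x l (I j) : ℝ) • Pi.single l (1 : ℝ) := by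
        funext i
        rw [opR_apply]
        simp [Pi.single_apply, Finset.sum_apply]
      rw [h3, MultilinearMap.map_update_sum]
      refine Finset.sum_congr rfl fun l _ => ?_
      rw [MultilinearMap.map_update_smul, smul_eq_mul]
      congr 1
      rw [← formR_basis]
      congr 1
      funext i
      by_cases h : i = j
      · subst h
        simp
      · simp [h]
    simp only [h2]
    exact_mod_cast h1
  intro v
  rw [← hT, hT0]
  rfl

theorem sum_two {R : Type} [AddCommMonoid R] (F : Fin r → Fin r → R) :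
    ∑ I : Fin 2 → Fin r, F (I 0) (I 1) = ∑ i, ∑ j, F i j := by
  rw [← Fintype.sum_prod_type']
  exact Fintype.sum_equiv (finTwoArrowEquiv (Fin r)) _ _ (fun I => rfl)

/-- the quadratic form of a matrix -/
def tQ (Q : Matrix (Fin r) (Fin r) ℚ) : (Fin 2 → Fin r) → ℚ := fun I => Q (I 0) (I 1)

theorem tQ_ev (Q : Matrix (Fin r) (Fin r) ℚ) (v : Fin 2 → Fin r → ℝ) :
    formR (tQ Q) v = ∑ i, ∑ j, (Q i j : ℝ) * (v 0 i * v 1 j) := by
  rw [formR_apply, ← sum_two]
  refine Finset.sum_congr rfl fun I _ => ?_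
  rw [Fin.prod_univ_two]
  rfl

theorem tQ_drb (X : K3Type r) (Q : Matrix (Fin r) (Fin r) ℚ)
    (h : ∀ a b, IsAlgebraic ℚ (∑ i, ∑ j, (Q i j : ℂ) * (X.D i a * X.D j b))) :
    X.IsDRB (tQ Q) := by
  intro J
  have : (∑ I : Fin 2 → Fin r, (tQ Q I : ℂ) * ∏ j, X.D (I j) (J j)) =
      ∑ i, ∑ j, (Q i j : ℂ) * (X.D i (J 0) * X.D j (J 1)) := by
    rw [← sum_two]
    refine Finset.sum_congr rfl fun I _ => ?_
    rw [Fin.prod_univ_two]
    rfl
  rw [this]
  exact h _ _

theorem kills_two (X : K3Type r) (Q : Matrix (Fin r) (Fin r) ℚ) (h : X.IsDRB (tQ Q))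
    (y : End ℝ (Fin r → ℝ)) (hy : y ∈ X.hT) (u w : Fin r → ℝ) :
    (∑ i, ∑ j, (Q i j : ℝ) * (y u i * w j)) + ∑ i, ∑ j, (Q i j : ℝ) * (u i * y w j) = 0 := by
  have := hy 2 _ h ![u, w]
  rw [Fin.sum_univ_two, tQ_ev, tQ_ev] at this
  simpa using this

theorem skew_hT (X : K3Type r) (y : End ℝ (Fin r → ℝ)) (hy : y ∈ X.hT) : Skew (bilR X.B) y := by
  intro u w
  have hD : X.IsDRB (tQ X.B) := by
    apply tQ_drb
    intro a b
    have := X.alg a b
    unfold bil at this
    convert this using 1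
    refine Finset.sum_congr rfl fun i _ => Finset.sum_congr rfl fun j _ => ?_
    ring
  have := kills_two X X.B hD y hy u w
  rw [bilR_apply, bilR_apply]
  convert this using 2
  · refine Finset.sum_congr rfl fun i _ => Finset.sum_congr rfl fun j _ => ?_
    ring
  · refine Finset.sum_congr rfl fun i _ => Finset.sum_congr rfl fun j _ => ?_
    ring

theorem bilR_nondeg (X : K3Type r) (v : Fin r → ℝ) (h : ∀ w, bilR X.B v w = 0) : v = 0 := by
  by_contra hv
  have h1 : bil X.B (fun i => (v i : ℂ)) X.ω = 0 := by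
    have e1 := h (fun i => (X.ω i).re)
    have e2 := h (fun i => (X.ω i).im)
    rw [bilR_apply] at e1 e2
    apply Complex.ext
    · simp only [bil, Complex.re_sum, Complex.zero_re]
      rw [← e1]
      refine Finset.sum_congr rfl fun i _ => Finset.sum_congr rfl fun j _ => ?_
      simp
    · simp only [bil, Complex.im_sum, Complex.zero_im]
      rw [← e2]
      refine Finset.sum_congr rfl fun i _ => Finset.sum_congr rfl fun j _ => ?_
      simp
  have h2 := X.neg v hv h1
  have h3 : (bil X.B (fun i => (v i : ℂ)) (fun i => (v i : ℂ))).re = bilR X.B v v := by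
    rw [bilR_apply]
    simp only [bil, Complex.re_sum]
    refine Finset.sum_congr rfl fun i _ => Finset.sum_congr rfl fun j _ => ?_
    simp
  rw [h3, h v] at h2
  exact lt_irrefl _ h2

theorem comm_hodge (X : K3Type r) (hD : X.Deligne) (P : Matrix (Fin r) (Fin r) ℚ)
    (hP : X.HodgeEnd P) (y : End ℝ (Fin r → ℝ)) (hy : y ∈ X.hT) (u : Fin r → ℝ) :
    opR P (y u) = y (opR P u) := by
  have hsk := skew_hT X y hy
  have hDR : X.IsDRB (tQ (P.transpose * X.B)) := by
    apply tQ_drb
    intro a b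
    have := hD P hP a b
    unfold bil app at this
    convert this using 1
    have e1 : ∀ i j, ((P.transpose * X.B) i j : ℚ) = ∑ l, P l i * X.B l j := by
      intro i j
      rw [Matrix.mul_apply]
      rfl
    simp only [e1]
    push_cast
    have e2 : ∀ i j, (∑ l, (P l i : ℂ) * (X.B l j : ℂ)) * (X.D i a * X.D j b) =
        ∑ l, (P l i : ℂ) * X.D i a * (X.B l j : ℂ) * X.D j b := by
      intro i j
      rw [Finset.sum_mul]
      exact Finset.sum_congr rfl fun l _ => by ring
    simp only [e2, Finset.sum_mul]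
    calc ∑ i, ∑ j, ∑ l, (P l i : ℂ) * X.D i a * (X.B l j : ℂ) * X.D j b
        = ∑ i, ∑ l, ∑ j, (P l i : ℂ) * X.D i a * (X.B l j : ℂ) * X.D j b :=
          Finset.sum_congr rfl fun i _ => Finset.sum_comm
      _ = ∑ l, ∑ i, ∑ j, (P l i : ℂ) * X.D i a * (X.B l j : ℂ) * X.D j b := Finset.sum_comm
      _ = _ := Finset.sum_congr rfl fun l _ => Finset.sum_comm
  have key : ∀ w, bilR X.B (opR P (y u)) w + bilR X.B (opR P u) (y w) = 0 := by
    intro w
    have := kills_two X _ hDR y hy u w
    have conv : ∀ u w : Fin r → ℝ, bilR X.B (opR P u) w =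
        ∑ i, ∑ j, ((P.transpose * X.B) i j : ℝ) * (u i * w j) := by
      intro u w
      rw [bilR_apply]
      simp only [opR_apply]
      have e1 : ∀ i j, ((P.transpose * X.B) i j : ℚ) = ∑ l, P l i * X.B l j := by
        intro i j
        rw [Matrix.mul_apply]
        rfl
      simp only [e1]
      push_cast
      simp only [Finset.sum_mul]
      calc ∑ l, ∑ j, ∑ i, (P l i : ℝ) * u i * (X.B l j : ℝ) * w j
          = ∑ l, ∑ i, ∑ j, (P l i : ℝ) * u i * (X.B l j : ℝ) * w j :=
            Finset.sum_congr rfl fun l _ => Finset.sum_comm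
        _ = ∑ i, ∑ l, ∑ j, (P l i : ℝ) * u i * (X.B l j : ℝ) * w j := Finset.sum_comm
        _ = ∑ i, ∑ j, ∑ l, (P l i : ℝ) * u i * (X.B l j : ℝ) * w j :=
            Finset.sum_congr rfl fun i _ => Finset.sum_comm
        _ = _ := Finset.sum_congr rfl fun i _ => Finset.sum_congr rfl fun j _ =>
            Finset.sum_congr rfl fun l _ => by ring
    rw [conv, conv]
    exact this
  have h0 : opR P (y u) - y (opR P u) = 0 := by
    apply bilR_nondeg X
    intro w
    have h1 := key w
    have h2 := hsk (opR P u) w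
    rw [map_sub, LinearMap.sub_apply]
    linarith
  exact sub_eq_zero.1 h0

theorem hT_U (X : K3Type r) (hD : X.Deligne) : ∀ y ∈ X.hT, ∀ u ∈ X.U, y u ∈ X.U := by
  intro y hy u hu P hP c hc i
  have h1 := comm_hodge X hD P hP y hy u
  have h2 : opR P u = c • u := by
    funext i
    rw [opR_apply]
    exact hu P hP c hc i
  rw [h2, map_smul] at h1
  have h3 := congrFun h1 i
  rw [opR_apply] at h3
  exact h3

theorem bil_cj (X : K3Type r) : bil X.B X.ω (cj X.ω) ≠ 0 := by
  intro h
  have := X.pos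
  rw [h] at this
  simp at this

theorem app_cj (P : Matrix (Fin r) (Fin r) ℚ) (v : Fin r → ℂ) : app P (cj v) = cj (app P v) := by
  funext i
  simp [app, cj, map_sum]

theorem bil_smul_left (B : Matrix (Fin r) (Fin r) ℚ) (c : ℂ) (u v : Fin r → ℂ) :
    bil B (c • u) v = c * bil B u v := by
  simp only [bil, Finset.mul_sum, Pi.smul_apply, smul_eq_mul]
  exact Finset.sum_congr rfl fun i _ => Finset.sum_congr rfl fun j _ => by ring

theorem bil_smul_right (B : Matrix (Fin r) (Fin r) ℚ) (c : ℂ) (u v : Fin r → ℂ) :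
    bil B u (c • v) = c * bil B u v := by
  simp only [bil, Finset.mul_sum, Pi.smul_apply, smul_eq_mul]
  exact Finset.sum_congr rfl fun i _ => Finset.sum_congr rfl fun j _ => by ring

/-- (2) -/
theorem hodge_real (X : K3Type r) (hR : X.RealMult) (P : Matrix (Fin r) (Fin r) ℚ)
    (hP : X.HodgeEnd P) : ∃ c : ℝ, app P X.ω = (c : ℂ) • X.ω := by
  obtain ⟨c, hc⟩ := hP.1
  have h1 := hR P hP X.ω (cj X.ω)
  rw [app_cj, hc, bil_smul_left] at h1
  have h2 : cj (c • X.ω) = (starRingEnd ℂ c) • cj X.ω := by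
    funext i
    simp [cj]
  rw [h2, bil_smul_right] at h1
  have h3 := mul_right_cancel₀ (bil_cj X) h1
  refine ⟨c.re, ?_⟩
  rw [hc, Complex.conj_eq_iff_re.1 h3.symm]

/-- the complex subspace of a `J`-stable real one -/
def MC (M : Submodule ℝ ((Fin r → ℝ) × (Fin r → ℝ))) (hJ : JStable M) :
    Submodule ℂ (Fin r → ℂ) where
  carrier := {v | ((fun i => (v i).re, fun i => (v i).im) : (Fin r → ℝ) × (Fin r → ℝ)) ∈ M}
  zero_mem' := by
    have : ((fun i => ((0 : Fin r → ℂ) i).re, fun i => ((0 : Fin r → ℂ) i).im) :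
        (Fin r → ℝ) × (Fin r → ℝ)) = 0 := by
      ext <;> simp
    change _ ∈ M
    rw [this]
    exact M.zero_mem
  add_mem' := by
    intro a b ha hb
    have := M.add_mem ha hb
    change ((fun i => ((a + b) i).re, fun i => ((a + b) i).im) : (Fin r → ℝ) × (Fin r → ℝ)) ∈ M
    convert this using 1
    ext i <;> simp
  smul_mem' := by
    intro c v hv
    have h1 := M.smul_mem c.re hv
    have h2 := M.smul_mem c.im (hJ _ hv)
    have := M.add_mem h1 h2
    change ((fun i => ((c • v) i).re, fun i => ((c • v) i).im) : (Fin r → ℝ) × (Fin r → ℝ)) ∈ M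
    convert this using 1
    ext i
    · simp [Complex.mul_re]
      ring
    · simp [Complex.mul_im]

theorem mem_MC (M : Submodule ℝ ((Fin r → ℝ) × (Fin r → ℝ))) (hJ : JStable M) (v : Fin r → ℂ) :
    v ∈ MC M hJ ↔
      ((fun i => (v i).re, fun i => (v i).im) : (Fin r → ℝ) × (Fin r → ℝ)) ∈ M := Iff.rfl

theorem app_re (x : Matrix (Fin r) (Fin r) ℚ) (v : Fin r → ℂ) :
    (fun i => (app x v i).re) = opR x (fun i => (v i).re) := by
  funext i
  rw [opR_apply]
  simp [app, Complex.re_sum]

theorem app_im (x : Matrix (Fin r) (Fin r) ℚ) (v : Fin r → ℂ) :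
    (fun i => (app x v i).im) = opR x (fun i => (v i).im) := by
  funext i
  rw [opR_apply]
  simp [app, Complex.im_sum]

theorem app_mulVec (x : Matrix (Fin r) (Fin r) ℚ) (v : Fin r → ℂ) :
    app x v = (x.map (fun q : ℚ => (q : ℂ))).mulVec v := by
  funext i
  simp [app, Matrix.mulVec, dotProduct]

theorem app_add (x : Matrix (Fin r) (Fin r) ℚ) (v w : Fin r → ℂ) :
    app x (v + w) = app x v + app x w := by
  rw [app_mulVec, app_mulVec, app_mulVec, Matrix.mulVec_add]

theorem irr : S_irr := by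
  intro r X hRed hEnd hD hR
  refine ⟨?_, hT_U X hD⟩
  intro M hMU hJ hS
  by_cases hM : M = ⊥
  · exact Or.inl hM
  right
  have hst : ∀ x ∈ X.lie, ∀ v ∈ MC M hJ, app x v ∈ MC M hJ := by
    intro x hx v hv
    rw [mem_MC] at hv ⊢
    rw [app_re, app_im]
    exact hS _ (lie_mem X x hx) _ hv
  obtain ⟨M', hM'st, hcompl⟩ := hRed (MC M hJ) hst
  set π : (Fin r → ℂ) →ₗ[ℂ] (Fin r → ℂ) := (MC M hJ).projection M' hcompl with hπ
  have hπ1 : ∀ v ∈ MC M hJ, π v = v := fun v hv =>
    Submodule.projection_apply_of_mem_left hcompl hv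
  have hπ2 : ∀ v ∈ M', π v = 0 := fun v hv =>
    (Submodule.projection_apply_eq_zero_iff hcompl).2 hv
  have hπ3 : ∀ v, π v ∈ MC M hJ := fun v => Submodule.projection_apply_mem hcompl v
  have hπc : ∀ x ∈ X.lie, ∀ v, π (app x v) = app x (π v) := by
    intro x hx v
    obtain ⟨m, hm, m', hm', rfl⟩ : ∃ m ∈ MC M hJ, ∃ m' ∈ M', m + m' = v := by
      have : v ∈ MC M hJ ⊔ M' := by
        rw [hcompl.sup_eq_top]
        exact Submodule.mem_top
      exact Submodule.mem_sup.1 this
    rw [app_add, map_add, map_add, hπ1 _ (hst x hx m hm), hπ2 _ (hM'st x hx m' hm'), hπ1 m hm,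
      hπ2 m' hm', add_zero, add_zero]
  have hcomm : ∀ x ∈ X.lie, LinearMap.toMatrix' π * x.map (fun q : ℚ => (q : ℂ)) =
      x.map (fun q : ℚ => (q : ℂ)) * LinearMap.toMatrix' π := by
    intro x hx
    apply Matrix.toLin'.injective
    rw [Matrix.toLin'_mul, Matrix.toLin'_mul, Matrix.toLin'_toMatrix']
    apply LinearMap.ext
    intro v
    simp only [LinearMap.comp_apply, Matrix.toLin'_apply]
    rw [← app_mulVec, ← app_mulVec]
    exact hπc x hx v
  have hspan := hEnd _ hcomm
  have hscal : ∃ c : ℂ, ∀ v : Fin r → ℂ, (fun i => (v i).re) ∈ X.U → (fun i => (v i).im) ∈ X.U →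
      (LinearMap.toMatrix' π).mulVec v = c • v := by
    refine Submodule.span_induction (p := fun Q _ => ∃ c : ℂ, ∀ v : Fin r → ℂ,
      (fun i => (v i).re) ∈ X.U → (fun i => (v i).im) ∈ X.U → Q.mulVec v = c • v) ?_ ?_ ?_ ?_ hspan
    · rintro _ ⟨P, hP, rfl⟩
      obtain ⟨c, hc⟩ := hodge_real X hR P hP
      refine ⟨(c : ℂ), fun v h1 h2 => ?_⟩
      rw [← app_mulVec]
      funext i
      have e1 := h1 P hP c hc i
      have e2 := h2 P hP c hc i
      apply Complex.ext
      · rw [show (app P v i).re = (fun i => (app P v i).re) i from rfl, app_re, opR_apply, e1]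
        simp
      · rw [show (app P v i).im = (fun i => (app P v i).im) i from rfl, app_im, opR_apply, e2]
        simp
    · exact ⟨0, fun v _ _ => by simp⟩
    · rintro Q Q' _ _ ⟨c, hc⟩ ⟨c', hc'⟩
      exact ⟨c + c', fun v h1 h2 => by
        rw [Matrix.add_mulVec, hc v h1 h2, hc' v h1 h2, add_smul]⟩
    · rintro a Q _ ⟨c, hc⟩
      exact ⟨a * c, fun v h1 h2 => by
        rw [Matrix.smul_mulVec, hc v h1 h2, mul_smul]⟩
  obtain ⟨c, hc⟩ := hscal
  have hπm : ∀ v, (LinearMap.toMatrix' π).mulVec v = π v := by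
    intro v
    rw [← Matrix.toLin'_apply, Matrix.toLin'_toMatrix']
  obtain ⟨p, hp, hp0⟩ := Submodule.exists_mem_ne_zero_of_ne_bot hM
  have hc1 : c = 1 := by
    let m : Fin r → ℂ := fun i => ⟨p.1 i, p.2 i⟩
    have hm : m ∈ MC M hJ := by
      rw [mem_MC]
      exact hp
    have h1 := hc m (hMU p hp).1 (hMU p hp).2
    rw [hπm, hπ1 m hm] at h1
    have hm0 : m ≠ 0 := by
      intro h0
      apply hp0
      ext i
      · have := congrArg Complex.re (congrFun h0 i)
        simpa [m] using this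
      · have := congrArg Complex.im (congrFun h0 i)
        simpa [m] using this
    have h2 : (1 - c) • m = 0 := by
      rw [sub_smul, one_smul, ← h1, sub_self]
    exact (sub_eq_zero.1 ((smul_eq_zero.1 h2).resolve_right hm0)).symm
  intro u hu v hv
  let w : Fin r → ℂ := fun i => ⟨u i, v i⟩
  have h1 := hc w hu hv
  rw [hπm, hc1, one_smul] at h1
  have h2 := hπ3 w
  rw [h1] at h2
  exact h2

end

end Pool.Agent.W565.K3
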