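import Mathlib
import Pool.Agent.W544.K3.Defs

/-!
# Weights for two orthogonal hyperbolic pairs
-/

open Module Finset

set_option linter.unusedSimpArgs false

namespace Pool.Agent.W565.K3

open Pool.Agent.W544.K3

noncomputable section

variable {U : Type} [AddCommGroup U] [Module ℝ U]
  {B : U →ₗ[ℝ] U →ₗ[ℝ] ℝ} {e₁ f₁ e₂ f₂ : U}

theorem tbl (H : Hyp2 B e₁ f₁ e₂ f₂) :
    B e₁ e₁ = 0 ∧ B f₁ f₁ = 0 ∧ B e₁ f₁ = 1 ∧ B f₁ e₁ = 1 ∧
    B e₂ e₂ = 0 ∧ B f₂ f₂ = 0 ∧ B e₂ f₂ = 1 ∧ B f₂ e₂ = 1 ∧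
    B e₁ e₂ = 0 ∧ B e₂ e₁ = 0 ∧ B e₁ f₂ = 0 ∧ B f₂ e₁ = 0 ∧
    B f₁ e₂ = 0 ∧ B e₂ f₁ = 0 ∧ B f₁ f₂ = 0 ∧ B f₂ f₁ = 0 := by
  obtain ⟨hs, ⟨h11, h12, h13⟩, ⟨h21, h22, h23⟩, k1, k2, k3, k4, -⟩ := H
  refine ⟨h11, h12, h13, ?_, h21, h22, h23, ?_, k1, ?_, k2, ?_, k3, ?_, k4, ?_⟩
  · rw [hs, h13]
  · rw [hs, h23]
  · rw [hs, k1]
  · rw [hs, k2]
  · rw [hs, k3]
  · rw [hs, k4]

/-- the component in the orthogonal complement of the two planes -/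
def cmp (B : U →ₗ[ℝ] U →ₗ[ℝ] ℝ) (e₁ f₁ e₂ f₂ : U) : U →ₗ[ℝ] U :=
  LinearMap.id - (B f₁).smulRight e₁ - (B f₂).smulRight e₂ - (B e₂).smulRight f₂ -
    (B e₁).smulRight f₁

theorem cmp_apply (u : U) : cmp B e₁ f₁ e₂ f₂ u =
    u - B f₁ u • e₁ - B f₂ u • e₂ - B e₂ u • f₂ - B e₁ u • f₁ := by
  simp [cmp]

theorem decomp (u : U) : u = B f₁ u • e₁ + B f₂ u • e₂ + cmp B e₁ f₁ e₂ f₂ u + B e₂ u • f₂ +
    B e₁ u • f₁ := by
  rw [cmp_apply]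
  abel

theorem cmp_perp (H : Hyp2 B e₁ f₁ e₂ f₂) (u : U) :
    Perp B e₁ f₁ e₂ f₂ (cmp B e₁ f₁ e₂ f₂ u) := by
  obtain ⟨a1, a2, a3, a4, a5, a6, a7, a8, a9, a10, a11, a12, a13, a14, a15, a16⟩ := tbl H
  rw [cmp_apply]
  refine ⟨?_, ?_, ?_, ?_⟩ <;>
  · simp only [map_sub, map_smul, smul_eq_mul, a1, a2, a3, a4, a5, a6, a7, a8, a9, a10, a11, a12,
      a13, a14, a15, a16]
    ring

theorem cmp_of_perp {u : U} (hu : Perp B e₁ f₁ e₂ f₂ u) : cmp B e₁ f₁ e₂ f₂ u = u := by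
  obtain ⟨h1, h2, h3, h4⟩ := hu
  rw [cmp_apply, h1, h2, h3, h4]
  simp

/-- operators are determined on the five pieces -/
theorem ext5 {y y' : End ℝ U} (h1 : y e₁ = y' e₁) (h2 : y f₁ = y' f₁) (h3 : y e₂ = y' e₂)
    (h4 : y f₂ = y' f₂) (H : Hyp2 B e₁ f₁ e₂ f₂)
    (h5 : ∀ w, Perp B e₁ f₁ e₂ f₂ w → y w = y' w) : y = y' := by
  ext u
  rw [decomp (B := B) (e₁ := e₁) (f₁ := f₁) (e₂ := e₂) (f₂ := f₂) u]
  simp only [map_add, map_smul, h1, h2, h3, h4, h5 _ (cmp_perp H u)]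

/-- the semisimple element -/
def xel (B : U →ₗ[ℝ] U →ₗ[ℝ] ℝ) (e₁ f₁ e₂ f₂ : U) (a b : ℝ) : End ℝ U :=
  a • wedge B f₁ e₁ + b • wedge B f₂ e₂

theorem xel_apply (a b : ℝ) (u : U) : xel B e₁ f₁ e₂ f₂ a b u =
    a • (B f₁ u • e₁ - B e₁ u • f₁) + b • (B f₂ u • e₂ - B e₂ u • f₂) := by
  simp [xel, wedge_apply]

theorem xel_e1 (H : Hyp2 B e₁ f₁ e₂ f₂) (a b : ℝ) : xel B e₁ f₁ e₂ f₂ a b e₁ = a • e₁ := by
  obtain ⟨a1, a2, a3, a4, a5, a6, a7, a8, a9, a10, a11, a12, a13, a14, a15, a16⟩ := tbl H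
  rw [xel_apply, a1, a4, a10, a12]
  simp

theorem xel_f1 (H : Hyp2 B e₁ f₁ e₂ f₂) (a b : ℝ) : xel B e₁ f₁ e₂ f₂ a b f₁ = (-a) • f₁ := by
  obtain ⟨a1, a2, a3, a4, a5, a6, a7, a8, a9, a10, a11, a12, a13, a14, a15, a16⟩ := tbl H
  rw [xel_apply, a2, a3, a14, a16]
  simp

theorem xel_e2 (H : Hyp2 B e₁ f₁ e₂ f₂) (a b : ℝ) : xel B e₁ f₁ e₂ f₂ a b e₂ = b • e₂ := by
  obtain ⟨a1, a2, a3, a4, a5, a6, a7, a8, a9, a10, a11, a12, a13, a14, a15, a16⟩ := tbl H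
  rw [xel_apply, a5, a8, a9, a13]
  simp

theorem xel_f2 (H : Hyp2 B e₁ f₁ e₂ f₂) (a b : ℝ) : xel B e₁ f₁ e₂ f₂ a b f₂ = (-b) • f₂ := by
  obtain ⟨a1, a2, a3, a4, a5, a6, a7, a8, a9, a10, a11, a12, a13, a14, a15, a16⟩ := tbl H
  rw [xel_apply, a6, a7, a11, a15]
  simp

theorem xel_perp (a b : ℝ) {w : U} (hw : Perp B e₁ f₁ e₂ f₂ w) :
    xel B e₁ f₁ e₂ f₂ a b w = (0 : ℝ) • w := by
  obtain ⟨h1, h2, h3, h4⟩ := hw
  rw [xel_apply, h1, h2, h3, h4]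
  simp

theorem wedge_skew (hs : ∀ u v, B u v = B v u) (u v : U) : Skew B (wedge B u v) := by
  intro p q
  rw [wedge_apply, wedge_apply]
  simp only [map_sub, map_smul, LinearMap.sub_apply, LinearMap.smul_apply, smul_eq_mul]
  rw [hs p u, hs p v]
  ring

/-- weights -/
theorem weight (H : Hyp2 B e₁ f₁ e₂ f₂) {a b μ : ℝ} {w : U}
    (hw : xel B e₁ f₁ e₂ f₂ a b w = μ • w) :
    (μ ≠ a → B f₁ w = 0) ∧ (μ ≠ b → B f₂ w = 0) ∧ (μ ≠ 0 → cmp B e₁ f₁ e₂ f₂ w = 0) ∧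
    (μ ≠ -b → B e₂ w = 0) ∧ (μ ≠ -a → B e₁ w = 0) := by
  obtain ⟨a1, a2, a3, a4, a5, a6, a7, a8, a9, a10, a11, a12, a13, a14, a15, a16⟩ := tbl H
  rw [xel_apply] at hw
  refine ⟨fun h => ?_, fun h => ?_, fun h => ?_, fun h => ?_, fun h => ?_⟩
  · have := congrArg (B f₁) hw
    simp only [map_add, map_sub, map_smul, smul_eq_mul, a1, a2, a3, a4, a5, a6, a7, a8, a9, a10,
      a11, a12, a13, a14, a15, a16] at this
    have h2 : (μ - a) * B f₁ w = 0 := by linear_combination -this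
    exact (mul_eq_zero.1 h2).resolve_left (sub_ne_zero.2 h)
  · have := congrArg (B f₂) hw
    simp only [map_add, map_sub, map_smul, smul_eq_mul, a1, a2, a3, a4, a5, a6, a7, a8, a9, a10,
      a11, a12, a13, a14, a15, a16] at this
    have h2 : (μ - b) * B f₂ w = 0 := by linear_combination -this
    exact (mul_eq_zero.1 h2).resolve_left (sub_ne_zero.2 h)
  · have := congrArg (cmp B e₁ f₁ e₂ f₂) hw
    have c1 : cmp B e₁ f₁ e₂ f₂ e₁ = 0 := by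
      rw [cmp_apply, a4, a12, a10, a1]; simp
    have c2 : cmp B e₁ f₁ e₂ f₂ f₁ = 0 := by
      rw [cmp_apply, a2, a16, a14, a3]; simp
    have c3 : cmp B e₁ f₁ e₂ f₂ e₂ = 0 := by
      rw [cmp_apply, a13, a8, a5, a9]; simp
    have c4 : cmp B e₁ f₁ e₂ f₂ f₂ = 0 := by
      rw [cmp_apply, a15, a6, a7, a11]; simp
    simp only [map_add, map_sub, map_smul, c1, c2, c3, c4] at this
    simp only [smul_zero, sub_zero, add_zero] at this
    exact (smul_eq_zero.1 this.symm).resolve_left h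
  · have := congrArg (B e₂) hw
    simp only [map_add, map_sub, map_smul, smul_eq_mul, a1, a2, a3, a4, a5, a6, a7, a8, a9, a10,
      a11, a12, a13, a14, a15, a16] at this
    have h2 : (μ + b) * B e₂ w = 0 := by linear_combination -this
    exact (mul_eq_zero.1 h2).resolve_left (fun h' => h (by linarith))
  · have := congrArg (B e₁) hw
    simp only [map_add, map_sub, map_smul, smul_eq_mul, a1, a2, a3, a4, a5, a6, a7, a8, a9, a10,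
      a11, a12, a13, a14, a15, a16] at this
    have h2 : (μ + a) * B e₁ w = 0 := by linear_combination -this
    exact (mul_eq_zero.1 h2).resolve_left (fun h' => h (by linarith))

theorem hom_apply {x y : End ℝ U} {α μ : ℝ} (h : Hom x α y) {u : U} (hu : x u = μ • u) :
    x (y u) = (μ + α) • y u := by
  have := LinearMap.congr_fun h u
  simp only [LinearMap.sub_apply, Module.End.mul_apply, LinearMap.smul_apply, hu, map_smul] at this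
  rw [add_smul, ← this]
  abel

theorem skew_self {y : End ℝ U} (hs : ∀ u v, B u v = B v u) (hy : Skew B y) (u : U) :
    B u (y u) = 0 := by
  have := hy u u
  rw [hs (y u) u] at this
  linarith

theorem diag_xel (H : Hyp2 B e₁ f₁ e₂ f₂) (a b : ℝ) : Diag (xel B e₁ f₁ e₂ f₂ a b) := by
  have key : ∀ (μ : ℝ) (u : U), xel B e₁ f₁ e₂ f₂ a b u = μ • u →
      u ∈ ⨆ μ : ℝ, End.eigenspace (xel B e₁ f₁ e₂ f₂ a b) μ := by
    intro μ u hu
    exact (le_iSup (fun μ : ℝ => End.eigenspace (xel B e₁ f₁ e₂ f₂ a b) μ) μ)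
      (End.mem_eigenspace_iff.2 hu)
  unfold Diag
  rw [Submodule.eq_top_iff']
  intro u
  rw [decomp (B := B) (e₁ := e₁) (f₁ := f₁) (e₂ := e₂) (f₂ := f₂) u]
  refine Submodule.add_mem _ (Submodule.add_mem _ (Submodule.add_mem _ (Submodule.add_mem _ ?_ ?_)
    ?_) ?_) ?_
  · exact Submodule.smul_mem _ _ (key a _ (xel_e1 H a b))
  · exact Submodule.smul_mem _ _ (key b _ (xel_e2 H a b))
  · exact key 0 _ (xel_perp a b (cmp_perp H u))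
  · exact Submodule.smul_mem _ _ (key (-b) _ (xel_f2 H a b))
  · exact Submodule.smul_mem _ _ (key (-a) _ (xel_f1 H a b))

/-- the bracket with a wedge -/
theorem bracket_wedge {y : End ℝ U} (hy : Skew B y) (u v : U) :
    y * wedge B u v - wedge B u v * y = wedge B (y u) v + wedge B u (y v) := by
  ext w
  simp only [LinearMap.sub_apply, LinearMap.add_apply, Module.End.mul_apply, wedge_apply, map_sub,
    map_smul]
  have h1 := hy u w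
  have h2 := hy v w
  rw [show B u (y w) = -B (y u) w by linarith, show B v (y w) = -B (y v) w by linarith]
  simp only [neg_smul]
  abel

/-- the reversed configuration -/
theorem hyp2_swap (H : Hyp2 B e₁ f₁ e₂ f₂) : Hyp2 B f₁ e₁ f₂ e₂ := by
  obtain ⟨a1, a2, a3, a4, a5, a6, a7, a8, a9, a10, a11, a12, a13, a14, a15, a16⟩ := tbl H
  obtain ⟨hs, -, -, -, -, -, -, hneg⟩ := H
  exact ⟨hs, ⟨a2, a1, a4⟩, ⟨a6, a5, a8⟩, a15, a13, a11, a9,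
    fun v hv h1 h2 h3 h4 => hneg v hv h2 h1 h4 h3⟩

theorem perp_swap {w : U} : Perp B f₁ e₁ f₂ e₂ w ↔ Perp B e₁ f₁ e₂ f₂ w := by
  constructor
  · rintro ⟨h1, h2, h3, h4⟩
    exact ⟨h2, h1, h4, h3⟩
  · rintro ⟨h1, h2, h3, h4⟩
    exact ⟨h2, h1, h4, h3⟩

theorem wedge_anti (u v : U) : wedge B u v = -wedge B v u := by
  ext w
  simp [wedge_apply]

end

end Pool.Agent.W565.K3
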