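import Mathlib
import Pool.Agent.W544.K3.Defs
import Pool.Agent.W565.K3.Lib

/-!
# K3-NEY and K3-NEM
-/

open Module Finset

set_option linter.unusedSimpArgs false

namespace Pool.Agent.W565.K3

open Pool.Agent.W544.K3

noncomputable section

/-- the complexification of a real subspace -/
theorem jstable_prod {U : Type} [AddCommGroup U] [Module ℝ U] (M : Submodule ℝ U) :
    JStable (M.prod M) := by
  intro p hp
  obtain ⟨h1, h2⟩ := Submodule.mem_prod.1 hp
  exact Submodule.mem_prod.2 ⟨M.neg_mem h2, h1⟩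

/-- S_clos for complexifications of real subspaces -/
theorem clos_real (hc : S_clos) {U : Type} [AddCommGroup U] [Module ℝ U] [FiniteDimensional ℝ U]
    {x : End ℝ U} {h : Submodule ℝ (End ℝ U)} (hd : Diag x) (hx : x ∈ h)
    (hlie : ∀ y ∈ h, ∀ z ∈ h, y * z - z * y ∈ h) (hirr : CIrr (h : Set (End ℝ U)))
    (e : U) (he : e ≠ 0) (M : Submodule ℝ U) (heM : e ∈ M)
    (hpos : ∀ α : ℝ, 0 < α → ∀ y ∈ h, Hom x α y → y e = 0)
    (hneg : ∀ α : ℝ, α ≤ 0 → ∀ y ∈ h, Hom x α y → ∀ p ∈ M, y p ∈ M) : M = ⊤ := by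
  have hL : (Submodule.span ℝ {e} : Submodule ℝ U) ≤ M := by
    rw [Submodule.span_le]
    intro v hv
    rw [Set.mem_singleton_iff] at hv
    rw [hv]
    exact heM
  have := hc U x h hd hx hlie hirr ((Submodule.span ℝ {e}).prod (Submodule.span ℝ {e}))
    (M.prod M) (jstable_prod _) (jstable_prod _) (Submodule.prod_mono hL hL) (by
      intro h0
      have : ((e, 0) : U × U) ∈ ((Submodule.span ℝ {e}).prod (Submodule.span ℝ {e}) :
          Submodule ℝ (U × U)) :=
        Submodule.mem_prod.2 ⟨Submodule.mem_span_singleton_self e, Submodule.zero_mem _⟩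
      rw [h0, Submodule.mem_bot] at this
      exact he (congrArg Prod.fst this)) (by
      intro α hα y hy hom p hp
      obtain ⟨h1, h2⟩ := Submodule.mem_prod.1 hp
      have key := hpos α hα y hy hom
      obtain ⟨c1, hc1⟩ := Submodule.mem_span_singleton.1 h1
      obtain ⟨c2, hc2⟩ := Submodule.mem_span_singleton.1 h2
      rw [← hc1, ← hc2, map_smul, map_smul, key]
      simp) (by
      intro α hα y hy hom p hp
      obtain ⟨h1, h2⟩ := Submodule.mem_prod.1 hp
      exact Submodule.mem_prod.2 ⟨hneg α hα y hy hom _ h1, hneg α hα y hy hom _ h2⟩)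
  rw [Submodule.eq_top_iff']
  intro v
  have hv : ((v, 0) : U × U) ∈ (M.prod M : Submodule ℝ (U × U)) := by
    rw [this]
    exact Submodule.mem_top
  exact (Submodule.mem_prod.1 hv).1

theorem neY : S_clos → S_neY := by
  intro hc U _ _ _ B h n D e₁ f₁ e₂ f₂ H a b hb hab hx
  obtain ⟨a1, a2, a3, a4, a5, a6, a7, a8, a9, a10, a11, a12, a13, a14, a15, a16⟩ := tbl H
  have hs := H.1
  have hx' : xel B e₁ f₁ e₂ f₂ a b ∈ h := D.sub hx
  -- step 1
  have step1 : ∃ y ∈ h, Hom (xel B e₁ f₁ e₂ f₂ a b) (b - a) y ∧ y e₁ ≠ 0 := by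
    by_contra hcon
    push Not at hcon
    have he1 : e₁ ≠ 0 := by
      intro h0
      rw [h0] at a3
      simp at a3
    have := clos_real hc (diag_xel H a b) hx' D.lie D.irr e₁ he1 (LinearMap.ker (B f₂))
      (by rw [LinearMap.mem_ker, a12]) (by
        intro α hα y hy hom
        have hw := weight H (hom_apply hom (xel_e1 H a b))
        have hwk := skew_self hs (D.skew y hy) e₁
        rw [decomp (B := B) (e₁ := e₁) (f₁ := f₁) (e₂ := e₂) (f₂ := f₂) (y e₁)]
        rw [hw.1 (by linarith), hw.2.1 (by linarith), hw.2.2.1 (by linarith),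
          hw.2.2.2.1 (by linarith), hw.2.2.2.2 (by linarith)]
        simp) (by
        intro α hα y hy hom p hp
        rw [LinearMap.mem_ker] at hp ⊢
        have hw := weight H (hom_apply hom (xel_f2 H a b))
        have hsk := D.skew y hy
        have h1 := hsk f₂ p
        have h2 := hsk f₂ e₁
        have h3 : y f₂ = B e₂ (y f₂) • f₂ + B e₁ (y f₂) • f₁ := by
          conv_lhs => rw [decomp (B := B) (e₁ := e₁) (f₁ := f₁) (e₂ := e₂) (f₂ := f₂) (y f₂)]
          rw [hw.1 (by linarith), hw.2.1 (by linarith), hw.2.2.1 (by linarith)]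
          simp
        have h4 : B e₁ (y f₂) = 0 := by
          by_cases hαa : -b + α = -a
          · have hz : y e₁ = 0 := hcon y hy (by rwa [show b - a = α by linarith])
            rw [hz, map_zero, add_zero] at h2
            rw [hs, h2]
          · exact hw.2.2.2.2 hαa
        rw [h3, h4] at h1
        simp only [map_add, map_smul, LinearMap.add_apply, LinearMap.smul_apply, smul_eq_mul, hp]
          at h1
        linarith)
    have h5 : e₂ ∈ LinearMap.ker (B f₂) := by
      rw [this]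
      exact Submodule.mem_top
    rw [LinearMap.mem_ker, a8] at h5
    exact one_ne_zero h5
  obtain ⟨y, hy, hom, hye⟩ := step1
  -- normalise
  have hw := weight H (hom_apply hom (xel_e1 H a b))
  have hk : y e₁ = B f₂ (y e₁) • e₂ := by
    conv_lhs => rw [decomp (B := B) (e₁ := e₁) (f₁ := f₁) (e₂ := e₂) (f₂ := f₂) (y e₁)]
    rw [hw.1 (by linarith), hw.2.2.1 (by linarith), hw.2.2.2.1 (by linarith),
      hw.2.2.2.2 (by linarith)]
    simp
  have hk0 : B f₂ (y e₁) ≠ 0 := by
    intro h0
    rw [h0, zero_smul] at hk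
    exact hye hk
  set k := B f₂ (y e₁) with hkdef
  set Y : End ℝ U := k⁻¹ • y with hY
  have hYh : Y ∈ h := h.smul_mem _ hy
  have hYhom : Hom (xel B e₁ f₁ e₂ f₂ a b) (b - a) Y := by
    unfold Hom at hom ⊢
    rw [hY, mul_smul_comm, smul_mul_assoc, ← smul_sub, hom, smul_comm]
  have hYs := D.skew Y hYh
  have hYe1 : Y e₁ = e₂ := by
    rw [hY, LinearMap.smul_apply, hk, smul_smul, inv_mul_cancel₀ hk0, one_smul]
  have w2 := weight H (hom_apply hYhom (xel_e2 H a b))
  have hYe2 : Y e₂ = cmp B e₁ f₁ e₂ f₂ (Y e₂) := by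
    conv_lhs => rw [decomp (B := B) (e₁ := e₁) (f₁ := f₁) (e₂ := e₂) (f₂ := f₂) (Y e₂)]
    rw [w2.1 (by linarith), w2.2.1 (by linarith), skew_self hs hYs e₂, w2.2.2.2.2 (by linarith)]
    simp
  have hzP : Perp B e₁ f₁ e₂ f₂ (Y e₂) := by
    rw [hYe2]
    exact cmp_perp H _
  refine ⟨Y e₂, hzP, ?_, ?_⟩
  · by_cases hab2 : a = 2 * b
    · exact Or.inr hab2
    · left
      rw [hYe2]
      exact w2.2.2.1 (fun h0 => hab2 (by linarith))
  · have hYeq : Y = wedge B f₁ e₂ + wedge B f₂ (Y e₂) := by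
      apply ext5 ?_ ?_ ?_ ?_ H
      · intro w hw
        have w5 := weight H (hom_apply hYhom (xel_perp a b hw))
        have h6 : B e₂ (Y w) = -B (Y e₂) w := by
          have := hYs e₂ w
          linarith
        conv_lhs => rw [decomp (B := B) (e₁ := e₁) (f₁ := f₁) (e₂ := e₂) (f₂ := f₂) (Y w)]
        rw [w5.1 (by linarith), w5.2.1 (by linarith), w5.2.2.1 (by linarith), h6,
          w5.2.2.2.2 (by linarith)]
        obtain ⟨p1, p2, p3, p4⟩ := hw
        rw [LinearMap.add_apply, wedge_apply, wedge_apply, p2, p3, p4]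
        simp
      · rw [hYe1, LinearMap.add_apply, wedge_apply, wedge_apply, a4, a10, a12]
        rw [hs (Y e₂) e₁, hzP.1]
        simp
      · have w3 := weight H (hom_apply hYhom (xel_f1 H a b))
        rw [LinearMap.add_apply, wedge_apply, wedge_apply, a2, a14, a16, hs (Y e₂) f₁, hzP.2.1]
        conv_lhs => rw [decomp (B := B) (e₁ := e₁) (f₁ := f₁) (e₂ := e₂) (f₂ := f₂) (Y f₁)]
        rw [w3.1 (by linarith), w3.2.1 (by linarith), w3.2.2.1 (by linarith),
          w3.2.2.2.1 (by linarith), w3.2.2.2.2 (by linarith)]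
        simp
      · rw [LinearMap.add_apply, wedge_apply, wedge_apply, a13, a5, a8, hs (Y e₂) e₂, hzP.2.2.1]
        simp
      · have w4 := weight H (hom_apply hYhom (xel_f2 H a b))
        have h6 : B e₁ (Y f₂) = -1 := by
          have := hYs e₁ f₂
          rw [hYe1, a7] at this
          linarith
        rw [LinearMap.add_apply, wedge_apply, wedge_apply, a15, a7, a6, hs (Y e₂) f₂, hzP.2.2.2]
        conv_lhs => rw [decomp (B := B) (e₁ := e₁) (f₁ := f₁) (e₂ := e₂) (f₂ := f₂) (Y f₂)]
        rw [w4.1 (by linarith), w4.2.1 (by linarith), w4.2.2.1 (by linarith),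
          w4.2.2.2.1 (by linarith), h6]
        simp
    rw [← hYeq]
    exact hYh

end

end Pool.Agent.W565.K3
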