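import Mathlib
import Pool.Agent.W544.K3.Defs
import Pool.Agent.W565.K3.Lib
import Pool.Agent.W565.K3.Ney

/-!
# K3-NEM
-/

open Module Finset

set_option linter.unusedSimpArgs false

namespace Pool.Agent.W565.K3

open Pool.Agent.W544.K3

noncomputable section

theorem perp_add {U : Type} [AddCommGroup U] [Module ℝ U] {B : U →ₗ[ℝ] U →ₗ[ℝ] ℝ}
    {e₁ f₁ e₂ f₂ v w : U} (hv : Perp B e₁ f₁ e₂ f₂ v) (hw : Perp B e₁ f₁ e₂ f₂ w) :
    Perp B e₁ f₁ e₂ f₂ (v + w) := by
  obtain ⟨h1, h2, h3, h4⟩ := hv
  obtain ⟨k1, k2, k3, k4⟩ := hw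
  exact ⟨by rw [map_add, h1, k1, add_zero], by rw [map_add, h2, k2, add_zero],
    by rw [map_add, h3, k3, add_zero], by rw [map_add, h4, k4, add_zero]⟩

theorem perp_smul {U : Type} [AddCommGroup U] [Module ℝ U] {B : U →ₗ[ℝ] U →ₗ[ℝ] ℝ}
    {e₁ f₁ e₂ f₂ v : U} (c : ℝ) (hv : Perp B e₁ f₁ e₂ f₂ v) :
    Perp B e₁ f₁ e₂ f₂ (c • v) := by
  obtain ⟨h1, h2, h3, h4⟩ := hv
  exact ⟨by rw [map_smul, h1, smul_zero], by rw [map_smul, h2, smul_zero],
    by rw [map_smul, h3, smul_zero], by rw [map_smul, h4, smul_zero]⟩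

theorem wedge_add_right {U : Type} [AddCommGroup U] [Module ℝ U] {B : U →ₗ[ℝ] U →ₗ[ℝ] ℝ}
    (u v w : U) : wedge B u (v + w) = wedge B u v + wedge B u w := by
  ext t
  simp only [LinearMap.add_apply, wedge_apply, map_add, smul_add, add_smul]
  abel

theorem wedge_smul_right {U : Type} [AddCommGroup U] [Module ℝ U] {B : U →ₗ[ℝ] U →ₗ[ℝ] ℝ}
    (c : ℝ) (u v : U) : wedge B u (c • v) = c • wedge B u v := by
  ext t
  simp only [LinearMap.smul_apply, wedge_apply, map_smul, smul_sub, smul_eq_mul, mul_smul]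
  rw [smul_comm c (B u t) v]

theorem wedge_smul_left {U : Type} [AddCommGroup U] [Module ℝ U] {B : U →ₗ[ℝ] U →ₗ[ℝ] ℝ}
    (c : ℝ) (u v : U) : wedge B (c • u) v = c • wedge B u v := by
  rw [wedge_anti, wedge_smul_right, wedge_anti v u, smul_neg, neg_neg]

/-- the submodule of the spec -/
def Rm {U : Type} [AddCommGroup U] [Module ℝ U] (B : U →ₗ[ℝ] U →ₗ[ℝ] ℝ) (e₁ f₁ e₂ f₂ : U)
    (h : Submodule ℝ (End ℝ U)) : Submodule ℝ U where
  carrier := {z | Perp B e₁ f₁ e₂ f₂ z ∧ ∃ κ : ℝ, κ • wedge B f₁ e₂ + wedge B f₂ z ∈ h}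
  zero_mem' := by
    refine ⟨⟨map_zero _, map_zero _, map_zero _, map_zero _⟩, 0, ?_⟩
    have : wedge B f₂ (0 : U) = 0 := by
      ext t
      simp [wedge_apply]
    rw [this, zero_smul, add_zero]
    exact h.zero_mem
  add_mem' := by
    rintro z w ⟨h1, κ, h2⟩ ⟨h3, κ', h4⟩
    refine ⟨perp_add h1 h3, κ + κ', ?_⟩
    have := h.add_mem h2 h4
    rw [wedge_add_right, add_smul]
    convert this using 1
    abel
  smul_mem' := by
    rintro c z ⟨h1, κ, h2⟩
    refine ⟨perp_smul c h1, c * κ, ?_⟩
    have := h.smul_mem c h2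
    rw [wedge_smul_right, mul_smul, ← smul_add]
    exact this

theorem neM : S_clos → S_neM := by
  intro hc U _ _ _ B h n D e₁ f₁ e₂ f₂ H b hb hx hyp
  obtain ⟨a1, a2, a3, a4, a5, a6, a7, a8, a9, a10, a11, a12, a13, a14, a15, a16⟩ := tbl H
  have hs := H.1
  have hx' : xel B e₁ f₁ e₂ f₂ (2 * b) b ∈ h := D.sub hx
  have he1 : e₁ ≠ 0 := by
    intro h0
    rw [h0] at a3
    simp at a3
  have hR0 : ∀ u, cmp B e₁ f₁ e₂ f₂ u = 0 → cmp B e₁ f₁ e₂ f₂ u ∈ Rm B e₁ f₁ e₂ f₂ h := by
    intro u hu
    rw [hu]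
    exact Submodule.zero_mem _
  have hce1 : cmp B e₁ f₁ e₂ f₂ e₁ = 0 := by
    rw [cmp_apply, a4, a12, a10, a1]; simp
  have top := clos_real hc (diag_xel H (2 * b) b) hx' D.lie D.irr e₁ he1
    ((Rm B e₁ f₁ e₂ f₂ h).comap (cmp B e₁ f₁ e₂ f₂)) (by
      rw [Submodule.mem_comap, hce1]
      exact Submodule.zero_mem _) (by
      intro α hα y hy hom
      have hw := weight H (hom_apply hom (xel_e1 H (2 * b) b))
      rw [decomp (B := B) (e₁ := e₁) (f₁ := f₁) (e₂ := e₂) (f₂ := f₂) (y e₁)]
      rw [hw.1 (by linarith), hw.2.1 (by linarith), hw.2.2.1 (by linarith),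
        hw.2.2.2.1 (by linarith), hw.2.2.2.2 (by linarith)]
      simp) (by
      intro α hα y hy hom p hp
      rw [Submodule.mem_comap] at hp ⊢
      have hsk := D.skew y hy
      have w1 := weight H (hom_apply hom (xel_e1 H (2 * b) b))
      have w2 := weight H (hom_apply hom (xel_e2 H (2 * b) b))
      have w3 := weight H (hom_apply hom (xel_f1 H (2 * b) b))
      have w4 := weight H (hom_apply hom (xel_f2 H (2 * b) b))
      have wf1 : y f₁ = B e₁ (y f₁) • f₁ := by
        conv_lhs => rw [decomp (B := B) (e₁ := e₁) (f₁ := f₁) (e₂ := e₂) (f₂ := f₂) (y f₁)]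
        rw [w3.1 (by linarith), w3.2.1 (by linarith), w3.2.2.1 (by linarith),
          w3.2.2.2.1 (by linarith)]
        simp
      have wf2 : y f₂ = B e₂ (y f₂) • f₂ + B e₁ (y f₂) • f₁ := by
        conv_lhs => rw [decomp (B := B) (e₁ := e₁) (f₁ := f₁) (e₂ := e₂) (f₂ := f₂) (y f₂)]
        rw [w4.1 (by linarith), w4.2.1 (by linarith), w4.2.2.1 (by linarith)]
        simp
      -- the four parts
      have p1 : cmp B e₁ f₁ e₂ f₂ (y e₁) ∈ Rm B e₁ f₁ e₂ f₂ h := by
        by_cases h0 : 2 * b + α = 0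
        · have hP : Perp B e₁ f₁ e₂ f₂ (y e₁) :=
            ⟨w1.2.2.2.2 (by linarith), w1.1 (by linarith), w1.2.2.2.1 (by linarith),
              w1.2.1 (by linarith)⟩
          rw [cmp_of_perp hP]
          have hyeq : y = wedge B f₁ (y e₁) := by
            apply ext5 ?_ ?_ ?_ ?_ H
            · intro w hw
              have w5 := weight H (hom_apply hom (xel_perp (2 * b) b hw))
              have h6 : B e₁ (y w) = -B (y e₁) w := by
                have := hsk e₁ w
                linarith
              conv_lhs => rw [decomp (B := B) (e₁ := e₁) (f₁ := f₁) (e₂ := e₂) (f₂ := f₂) (y w)]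
              rw [w5.1 (by linarith), w5.2.1 (by linarith), w5.2.2.1 (by linarith), h6,
                w5.2.2.2.1 (by linarith), wedge_apply, hw.2.1]
              simp
            · rw [wedge_apply, a4, hs (y e₁) e₁, hP.1]
              simp
            · rw [wedge_apply, a2, hs (y e₁) f₁, hP.2.1, wf1, w3.2.2.2.2 (by linarith)]
              simp
            · rw [wedge_apply, a13, hs (y e₁) e₂, hP.2.2.1]
              conv_lhs => rw [decomp (B := B) (e₁ := e₁) (f₁ := f₁) (e₂ := e₂) (f₂ := f₂) (y e₂)]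
              rw [w2.1 (by linarith), w2.2.1 (by linarith), w2.2.2.1 (by linarith),
                skew_self hs hsk e₂, w2.2.2.2.2 (by linarith)]
              simp
            · rw [wedge_apply, a15, hs (y e₁) f₂, hP.2.2.2, wf2, w4.2.2.2.1 (by linarith),
                w4.2.2.2.2 (by linarith)]
              simp
          obtain ⟨κ, hκ⟩ := hyp (y e₁) hP (by rw [← hyeq]; exact hy)
          exact ⟨hP, κ, hκ⟩
        · exact hR0 _ (w1.2.2.1 h0)
      have p2 : cmp B e₁ f₁ e₂ f₂ (y e₂) ∈ Rm B e₁ f₁ e₂ f₂ h := by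
        by_cases h0 : b + α = 0
        · have hP : Perp B e₁ f₁ e₂ f₂ (y e₂) :=
            ⟨w2.2.2.2.2 (by linarith), w2.1 (by linarith), w2.2.2.2.1 (by linarith),
              w2.2.1 (by linarith)⟩
          rw [cmp_of_perp hP]
          have he1' : y e₁ = B f₂ (y e₁) • e₂ := by
            conv_lhs => rw [decomp (B := B) (e₁ := e₁) (f₁ := f₁) (e₂ := e₂) (f₂ := f₂) (y e₁)]
            rw [w1.1 (by linarith), w1.2.2.1 (by linarith), w1.2.2.2.1 (by linarith),
              w1.2.2.2.2 (by linarith)]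
            simp
          refine ⟨hP, B f₂ (y e₁), ?_⟩
          have hyeq : y = B f₂ (y e₁) • wedge B f₁ e₂ + wedge B f₂ (y e₂) := by
            apply ext5 ?_ ?_ ?_ ?_ H
            · intro w hw
              have w5 := weight H (hom_apply hom (xel_perp (2 * b) b hw))
              have h6 : B e₂ (y w) = -B (y e₂) w := by
                have := hsk e₂ w
                linarith
              conv_lhs => rw [decomp (B := B) (e₁ := e₁) (f₁ := f₁) (e₂ := e₂) (f₂ := f₂) (y w)]
              rw [w5.1 (by linarith), w5.2.1 (by linarith), w5.2.2.1 (by linarith), h6,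
                w5.2.2.2.2 (by linarith), LinearMap.add_apply, LinearMap.smul_apply, wedge_apply,
                wedge_apply, hw.2.1, hw.2.2.1, hw.2.2.2]
              simp
            · rw [LinearMap.add_apply, LinearMap.smul_apply, wedge_apply, wedge_apply, a4, a10,
                a12, hs (y e₂) e₁, hP.1]
              conv_lhs => rw [he1']
              simp
            · rw [LinearMap.add_apply, LinearMap.smul_apply, wedge_apply, wedge_apply, a2, a14,
                a16, hs (y e₂) f₁, hP.2.1, wf1, w3.2.2.2.2 (by linarith)]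
              simp
            · rw [LinearMap.add_apply, LinearMap.smul_apply, wedge_apply, wedge_apply, a13, a5,
                a8, hs (y e₂) e₂, hP.2.2.1]
              simp
            · have h7 : B e₁ (y f₂) = -B f₂ (y e₁) := by
                have := hsk e₁ f₂
                rw [hs (y e₁) f₂] at this
                linarith
              rw [LinearMap.add_apply, LinearMap.smul_apply, wedge_apply, wedge_apply, a15, a7,
                a6, hs (y e₂) f₂, hP.2.2.2]
              conv_lhs => rw [wf2, w4.2.2.2.1 (by linarith), h7]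
              simp
          rw [← hyeq]
          exact hy
        · exact hR0 _ (w2.2.2.1 h0)
      have p3 : cmp B e₁ f₁ e₂ f₂ (y (cmp B e₁ f₁ e₂ f₂ p)) ∈ Rm B e₁ f₁ e₂ f₂ h := by
        set w := cmp B e₁ f₁ e₂ f₂ p with hwdef
        have hwP : Perp B e₁ f₁ e₂ f₂ w := cmp_perp H p
        have w5 := weight H (hom_apply hom (xel_perp (2 * b) b hwP))
        by_cases h0 : α = 0
        · obtain ⟨-, κ, hκ⟩ := hp
          have hP : Perp B e₁ f₁ e₂ f₂ (y w) :=
            ⟨w5.2.2.2.2 (by linarith), w5.1 (by linarith), w5.2.2.2.1 (by linarith),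
              w5.2.1 (by linarith)⟩
          rw [cmp_of_perp hP]
          have hf1 : y f₁ = (-B f₁ (y e₁)) • f₁ := by
            have h7 : B e₁ (y f₁) = -B f₁ (y e₁) := by
              have := hsk e₁ f₁
              rw [hs (y e₁) f₁] at this
              linarith
            rw [← h7]
            exact wf1
          have he2 : y e₂ = B f₂ (y e₂) • e₂ := by
            conv_lhs => rw [decomp (B := B) (e₁ := e₁) (f₁ := f₁) (e₂ := e₂) (f₂ := f₂) (y e₂)]
            rw [w2.1 (by linarith), w2.2.2.1 (by linarith), w2.2.2.2.1 (by linarith),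
              w2.2.2.2.2 (by linarith)]
            simp
          have hf2 : y f₂ = (-B f₂ (y e₂)) • f₂ := by
            have h7 : B e₂ (y f₂) = -B f₂ (y e₂) := by
              have := hsk e₂ f₂
              rw [hs (y e₂) f₂] at this
              linarith
            rw [← h7]
            conv_lhs => rw [wf2, w4.2.2.2.2 (by linarith)]
            simp
          have hbr := D.lie y hy _ hκ
          have e1 : y * (κ • wedge B f₁ e₂ + wedge B f₂ w) -
              (κ • wedge B f₁ e₂ + wedge B f₂ w) * y =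
              κ • (y * wedge B f₁ e₂ - wedge B f₁ e₂ * y) +
                (y * wedge B f₂ w - wedge B f₂ w * y) := by
            rw [mul_add, add_mul, mul_smul_comm, smul_mul_assoc, smul_sub]
            abel
          rw [e1, bracket_wedge hsk, bracket_wedge hsk, hf1, he2, hf2] at hbr
          simp only [wedge_smul_left, wedge_smul_right] at hbr
          refine ⟨hP, κ * (-B f₁ (y e₁) + B f₂ (y e₂)) + B f₂ (y e₂) * κ, ?_⟩
          have := h.add_mem hbr (h.smul_mem (B f₂ (y e₂)) hκ)
          convert this using 1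
          module
        · exact hR0 _ (w5.2.2.1 (by simpa using h0))
      have p4 : cmp B e₁ f₁ e₂ f₂ (y f₁) = 0 := w3.2.2.1 (by linarith)
      have p5 : cmp B e₁ f₁ e₂ f₂ (y f₂) = 0 := w4.2.2.1 (by linarith)
      rw [decomp (B := B) (e₁ := e₁) (f₁ := f₁) (e₂ := e₂) (f₂ := f₂) p]
      simp only [map_add, map_smul, p4, p5, smul_zero, add_zero]
      exact Submodule.add_mem _ (Submodule.add_mem _ (Submodule.smul_mem _ _ p1)
        (Submodule.smul_mem _ _ p2)) p3)
  intro z hz
  have : z ∈ (Rm B e₁ f₁ e₂ f₂ h).comap (cmp B e₁ f₁ e₂ f₂) := by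
    rw [top]
    exact Submodule.mem_top
  rw [Submodule.mem_comap, cmp_of_perp hz] at this
  exact this.2

end

end Pool.Agent.W565.K3
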