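import Mathlib
import Pool.Agent.W544.K3.Defs
import Pool.Agent.W565.K3.Lib
import Pool.Agent.W565.K3.Nem

/-!
# K3-NE
-/

open Module Finset

set_option linter.unusedSimpArgs false

namespace Pool.Agent.W565.K3

open Pool.Agent.W544.K3

noncomputable section

variable {U : Type} [AddCommGroup U] [Module ℝ U]
  {B : U →ₗ[ℝ] U →ₗ[ℝ] ℝ} {e₁ f₁ e₂ f₂ : U}

/-- the commutator computation -/
theorem comm_eval (H : Hyp2 B e₁ f₁ e₂ f₂) (k k' : ℝ) (z z' : U)
    (hz : Perp B e₁ f₁ e₂ f₂ z) (hz' : Perp B e₁ f₁ e₂ f₂ z') :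
    ((k' • wedge B e₁ f₂ + wedge B e₂ z') * (k • wedge B f₁ e₂ + wedge B f₂ z) -
      (k • wedge B f₁ e₂ + wedge B f₂ z) * (k' • wedge B e₁ f₂ + wedge B e₂ z')) e₁ =
        (-(k * k')) • e₁ ∧
    ((k' • wedge B e₁ f₂ + wedge B e₂ z') * (k • wedge B f₁ e₂ + wedge B f₂ z) -
      (k • wedge B f₁ e₂ + wedge B f₂ z) * (k' • wedge B e₁ f₂ + wedge B e₂ z')) f₁ =
        -((-(k * k')) • f₁) ∧
    ((k' • wedge B e₁ f₂ + wedge B e₂ z') * (k • wedge B f₁ e₂ + wedge B f₂ z) -
      (k • wedge B f₁ e₂ + wedge B f₂ z) * (k' • wedge B e₁ f₂ + wedge B e₂ z')) e₂ =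
        (k * k' - B z z') • e₂ ∧
    ((k' • wedge B e₁ f₂ + wedge B e₂ z') * (k • wedge B f₁ e₂ + wedge B f₂ z) -
      (k • wedge B f₁ e₂ + wedge B f₂ z) * (k' • wedge B e₁ f₂ + wedge B e₂ z')) f₂ =
        -((k * k' - B z z') • f₂) := by
  obtain ⟨a1, a2, a3, a4, a5, a6, a7, a8, a9, a10, a11, a12, a13, a14, a15, a16⟩ := tbl H
  have hs := H.1
  obtain ⟨p1, p2, p3, p4⟩ := hz
  obtain ⟨q1, q2, q3, q4⟩ := hz'
  have p1' : B z e₁ = 0 := by rw [hs, p1]
  have p2' : B z f₁ = 0 := by rw [hs, p2]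
  have p3' : B z e₂ = 0 := by rw [hs, p3]
  have p4' : B z f₂ = 0 := by rw [hs, p4]
  have q1' : B z' e₁ = 0 := by rw [hs, q1]
  have q2' : B z' f₁ = 0 := by rw [hs, q2]
  have q3' : B z' e₂ = 0 := by rw [hs, q3]
  have q4' : B z' f₂ = 0 := by rw [hs, q4]
  refine ⟨?_, ?_, ?_, ?_⟩
  · simp only [LinearMap.sub_apply, LinearMap.add_apply, LinearMap.smul_apply,
      Module.End.mul_apply, wedge_apply, map_add, map_sub, map_smul, a1, a2, a3, a4, a5, a6, a7,
      a8, a9, a10, a11, a12, a13, a14, a15, a16, p1, p2, p3, p4, q1, q2, q3, q4, p1', p2', p3',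
      p4', q1', q2', q3', q4', zero_smul, one_smul, smul_zero, sub_zero, zero_sub, add_zero,
      zero_add, neg_zero, smul_neg, smul_smul, map_neg, map_zero]
    module
  · simp only [LinearMap.sub_apply, LinearMap.add_apply, LinearMap.smul_apply,
      Module.End.mul_apply, wedge_apply, map_add, map_sub, map_smul, a1, a2, a3, a4, a5, a6, a7,
      a8, a9, a10, a11, a12, a13, a14, a15, a16, p1, p2, p3, p4, q1, q2, q3, q4, p1', p2', p3',
      p4', q1', q2', q3', q4', zero_smul, one_smul, smul_zero, sub_zero, zero_sub, add_zero,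
      zero_add, neg_zero, smul_neg, smul_smul, map_neg, map_zero]
    module
  · simp only [LinearMap.sub_apply, LinearMap.add_apply, LinearMap.smul_apply,
      Module.End.mul_apply, wedge_apply, map_add, map_sub, map_smul, a1, a2, a3, a4, a5, a6, a7,
      a8, a9, a10, a11, a12, a13, a14, a15, a16, p1, p2, p3, p4, q1, q2, q3, q4, p1', p2', p3',
      p4', q1', q2', q3', q4', zero_smul, one_smul, smul_zero, sub_zero, zero_sub, add_zero,
      zero_add, neg_zero, smul_neg, smul_smul, map_neg, map_zero, hs z' z]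
    module
  · simp only [LinearMap.sub_apply, LinearMap.add_apply, LinearMap.smul_apply,
      Module.End.mul_apply, wedge_apply, map_add, map_sub, map_smul, a1, a2, a3, a4, a5, a6, a7,
      a8, a9, a10, a11, a12, a13, a14, a15, a16, p1, p2, p3, p4, q1, q2, q3, q4, p1', p2', p3',
      p4', q1', q2', q3', q4', zero_smul, one_smul, smul_zero, sub_zero, zero_sub, add_zero,
      zero_add, neg_zero, smul_neg, smul_smul, map_neg, map_zero]
    module

theorem ne : S_reH → S_neY → S_neM → S_ne := by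
  intro hre hY hM U _ _ _ B h n D hdim e₁ f₁ e₂ f₂ H a b hb hab hx
  by_contra hno
  push Not at hno
  have H1 : wedge B f₁ e₁ ∉ n := hno e₁ f₁ H.2.1
  have ha : 0 < a := lt_trans hb hab
  have hs := H.1
  obtain ⟨a1, a2, a3, a4, a5, a6, a7, a8, a9, a10, a11, a12, a13, a14, a15, a16⟩ := tbl H
  have H' := hyp2_swap H
  -- the relation
  have star : ∀ k k' : ℝ, ∀ z z' : U, Perp B e₁ f₁ e₂ f₂ z → Perp B e₁ f₁ e₂ f₂ z' →
      k • wedge B f₁ e₂ + wedge B f₂ z ∈ h → k' • wedge B e₁ f₂ + wedge B e₂ z' ∈ h →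
      a * B z z' = (a + b) * (k * k') := by
    intro k k' z z' hz hz' h1 h2
    obtain ⟨c1, c2, c3, c4⟩ := comm_eval H k k' z z' hz hz'
    have hC := D.lie _ h2 _ h1
    have hn := hre U B h n D e₁ f₁ e₂ f₂ H _ hC (-(k * k')) (k * k' - B z z') c1 c2 c3 c4
    by_contra hne
    have h3 := n.sub_mem (n.smul_mem b hn) (n.smul_mem (k * k' - B z z') hx)
    have h4 : b • (-(k * k') • wedge B f₁ e₁ + (k * k' - B z z') • wedge B f₂ e₂) -
        (k * k' - B z z') • (a • wedge B f₁ e₁ + b • wedge B f₂ e₂) =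
        (a * B z z' - (a + b) * (k * k')) • wedge B f₁ e₁ := by
      module
    rw [h4] at h3
    have h5 := n.smul_mem (a * B z z' - (a + b) * (k * k'))⁻¹ h3
    rw [smul_smul, inv_mul_cancel₀ (sub_ne_zero.2 hne), one_smul] at h5
    exact H1 h5
  have hx2 : a • wedge B e₁ f₁ + b • wedge B e₂ f₂ ∈ n := by
    have := n.neg_mem hx
    rw [wedge_anti e₁ f₁, wedge_anti e₂ f₂]
    convert this using 1
    module
  obtain ⟨z0, hz0, hz0a, hY0⟩ := hY U B h n D e₁ f₁ e₂ f₂ H a b hb hab hx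
  obtain ⟨z0', hz0', -, hX0⟩ := hY U B h n D f₁ e₁ f₂ e₂ H' a b hb hab hx2
  rw [perp_swap] at hz0'
  have hY0' : (1 : ℝ) • wedge B f₁ e₂ + wedge B f₂ z0 ∈ h := by rwa [one_smul]
  have hX0' : (1 : ℝ) • wedge B e₁ f₂ + wedge B e₂ z0' ∈ h := by rwa [one_smul]
  have s0 := star 1 1 z0 z0' hz0 hz0' hY0' hX0'
  have hz00 : z0 ≠ 0 := by
    intro h0
    rw [h0] at s0
    simp at s0
    linarith
  have hab2 : a = 2 * b := hz0a.resolve_left hz00
  subst hab2
  have hM1 := hM U B h n D e₁ f₁ e₂ f₂ H b hb hx (by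
    intro w hw hwh
    have h1 := D.lie _ hX0 _ hwh
    have hsk := D.skew _ hX0
    rw [bracket_wedge hsk] at h1
    have e1 : (wedge B e₁ f₂ + wedge B e₂ z0') f₁ = f₂ := by
      rw [LinearMap.add_apply, wedge_apply, wedge_apply, a3, a16, a14, hs z0' f₁, hz0'.2.1]
      simp
    have e2 : (wedge B e₁ f₂ + wedge B e₂ z0') w = (-B z0' w) • e₂ := by
      rw [LinearMap.add_apply, wedge_apply, wedge_apply, hw.1, hw.2.2.1, hw.2.2.2]
      simp
    rw [e1, e2, wedge_smul_right] at h1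
    refine ⟨-B z0' w, ?_⟩
    rw [add_comm]
    exact h1)
  have hM2 := hM U B h n D f₁ e₁ f₂ e₂ H' b hb hx2 (by
    intro w hw hwh
    rw [perp_swap] at hw
    have h1 := D.lie _ hY0 _ hwh
    have hsk := D.skew _ hY0
    rw [bracket_wedge hsk] at h1
    have e1 : (wedge B f₁ e₂ + wedge B f₂ z0) e₁ = e₂ := by
      rw [LinearMap.add_apply, wedge_apply, wedge_apply, a4, a10, a12, hs z0 e₁, hz0.1]
      simp
    have e2 : (wedge B f₁ e₂ + wedge B f₂ z0) w = (-B z0 w) • f₂ := by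
      rw [LinearMap.add_apply, wedge_apply, wedge_apply, hw.2.1, hw.2.2.1, hw.2.2.2]
      simp
    rw [e1, e2, wedge_smul_right] at h1
    refine ⟨-B z0 w, ?_⟩
    rw [add_comm]
    exact h1)
  have hinj : ∀ z, Perp B e₁ f₁ e₂ f₂ z → B z z0' = 0 → z = 0 := by
    intro z hz h0
    obtain ⟨k, hk⟩ := hM1 z hz
    obtain ⟨k', hk'⟩ := hM2 z (perp_swap.2 hz)
    have s1 := star k 1 z z0' hz hz0' hk hX0'
    have s2 := star k k' z z hz hz hk hk'
    have hk0 : k = 0 := by
      rw [h0] at s1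
      have : (2 * b + b) * k = 0 := by linarith
      exact (mul_eq_zero.1 this).resolve_left (by linarith)
    rw [hk0, zero_mul, mul_zero] at s2
    have h3 : B z z = 0 := (mul_eq_zero.1 s2).resolve_left (by linarith)
    by_contra hne
    have := H.2.2.2.2.2.2.2 z hne hz.1 hz.2.1 hz.2.2.1 hz.2.2.2
    linarith
  have hB0 : B z0' z0 ≠ 0 := by
    rw [hs]
    intro h0
    exact hz00 (hinj z0 hz0 h0)
  -- dimension
  apply hdim
  let φ : U →ₗ[ℝ] (Fin 5 → ℝ) := LinearMap.pi ![B e₁, B f₁, B e₂, B f₂, B z0']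
  have hφ : Function.Bijective φ := by
    constructor
    · rw [← LinearMap.ker_eq_bot, LinearMap.ker_eq_bot']
      intro u hu
      have g : ∀ i, φ u i = 0 := fun i => by rw [hu]; rfl
      have g0 : B e₁ u = 0 := g 0
      have g1 : B f₁ u = 0 := g 1
      have g2 : B e₂ u = 0 := g 2
      have g3 : B f₂ u = 0 := g 3
      have g4 : B z0' u = 0 := g 4
      exact hinj u ⟨g0, g1, g2, g3⟩ (by rw [hs, g4])
    · intro c
      refine ⟨c 1 • e₁ + c 0 • f₁ + c 3 • e₂ + c 2 • f₂ + (c 4 / B z0' z0) • z0, ?_⟩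
      have q1' : B z0' e₁ = 0 := by rw [hs, hz0'.1]
      have q2' : B z0' f₁ = 0 := by rw [hs, hz0'.2.1]
      have q3' : B z0' e₂ = 0 := by rw [hs, hz0'.2.2.1]
      have q4' : B z0' f₂ = 0 := by rw [hs, hz0'.2.2.2]
      obtain ⟨p1, p2, p3, p4⟩ := hz0
      funext i
      fin_cases i
      · change B e₁ _ = _
        simp [a1, a3, a9, a11, p1]
      · change B f₁ _ = _
        simp [a2, a4, a13, a15, p2]
      · change B e₂ _ = _
        simp [a5, a7, a10, a14, p3]
      · change B f₂ _ = _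
        simp [a6, a8, a12, a16, p4]
      · change B z0' _ = _
        simp [q1', q2', q3', q4', hB0]
  have := (LinearEquiv.ofBijective φ hφ).finrank_eq
  rw [this]
  simp

end

end Pool.Agent.W565.K3
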